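import Pool.Agent.N922.PQ.Lat

/-!
Project PQ (helper922), part UNIM (helper803), general lemmas: weak approximation, integrality away
from the other primes, ternary forms over `ℤ_p`. Adapted from `Pool/Agent/N765/PP` (helper765).
-/

set_option autoImplicit false
set_option linter.all false

open IsDedekindDomain Matrix
open scoped Classical

namespace Pool.Agent.N803.PQ

open Pool.Agent.N922.PQ
open Pool.Agent.N874.PP (Ev Sq1 U0)

/-! ### Weak approximation -/

section WA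

variable {O L : Type} [CommRing O] [IsDedekindDomain O] [Field L] [Algebra O L] [IsFractionRing O L]

theorem weak (T : Finset (HeightOneSpectrum O)) (y : HeightOneSpectrum O → L)
    (hy : ∀ v ∈ T, y v ≠ 0) : ∃ g : L, g ≠ 0 ∧ ∀ v ∈ T, v.valuation L g = v.valuation L (y v) := by
  rcases T.eq_empty_or_nonempty with rfl | hT
  · exact ⟨1, one_ne_zero, by simp⟩
  obtain ⟨d, hd⟩ := IsLocalization.exist_integer_multiples (nonZeroDivisors O) T y
  have hd0 : algebraMap O L d ≠ 0 := IsLocalization.to_map_ne_zero_of_mem_nonZeroDivisors L le_rfl d.2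
  choose z hz using hd
  have hz' : ∀ v : T, algebraMap O L (z v v.2) = algebraMap O L d * y v := fun v => by
    rw [hz v v.2, ← Algebra.smul_def]
  have hz0 : ∀ v : T, z v v.2 ≠ 0 := fun v h => by
    have := hz' v
    rw [h, map_zero] at this
    rcases mul_eq_zero.1 this.symm with h1 | h1
    · exact hd0 h1
    · exact hy v v.2 h1
  have hn : ∀ v : HeightOneSpectrum O, ∃ n : ℕ, ∀ hv : v ∈ T, WithZero.exp (-(n : ℤ)) <
      v.intValuation (z v hv) := by
    intro v
    by_cases hv : v ∈ T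
    · obtain ⟨n, hn⟩ := WithZero.exists_exp_neg_natCast_lt
        (v.intValuation_ne_zero (z v hv) (hz0 ⟨v, hv⟩))
      exact ⟨n, fun _ => hn⟩
    · exact ⟨0, fun h => absurd h hv⟩
  choose n hn using hn
  obtain ⟨w, hw⟩ := IsDedekindDomain.exists_forall_sub_mem_ideal (s := T)
    (fun v : HeightOneSpectrum O => v.asIdeal) n (fun v _ => v.prime)
    (fun v _ v' _ h => fun h' => h (HeightOneSpectrum.ext h')) (fun v => z v v.2)
  have hval : ∀ v (hv : v ∈ T), v.intValuation w = v.intValuation (z v hv) := by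
    intro v hv
    have h1 := (v.intValuation_le_pow_iff_mem _ _).2 (hw v hv)
    have h2 := h1.trans_lt (hn v hv)
    exact Valuation.map_eq_of_sub_lt _ h2
  have hgv : ∀ v ∈ T, v.valuation L (algebraMap O L w / algebraMap O L d) = v.valuation L (y v) := by
    intro v hv
    have e1 : v.valuation L (algebraMap O L w) = v.valuation L (algebraMap O L d * y v) := by
      rw [← hz' ⟨v, hv⟩, v.valuation_of_algebraMap, v.valuation_of_algebraMap]
      exact hval v hv
    rw [map_div₀, e1, map_mul, mul_div_cancel_left₀]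
    exact (Valuation.ne_zero_iff _).2 hd0
  refine ⟨algebraMap O L w / algebraMap O L d, ?_, hgv⟩
  intro h0
  obtain ⟨v, hv⟩ := hT
  have := hgv v hv
  rw [h0, map_zero] at this
  exact (Valuation.ne_zero_iff _).2 (hy v hv) this.symm

end WA

section primes

variable {L O : Type} [Field L] [CharZero L] [CommRing O]
  [IsDedekindDomain O] [Algebra O L] [IsFractionRing O L]

include L in
theorem intO_ne {m : ℤ} (hm : m ≠ 0) : (m : O) ≠ 0 := by
  intro h
  have h1 := congrArg (algebraMap O L) h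
  rw [map_intCast, map_zero] at h1
  exact hm (by exact_mod_cast h1)

include L in
theorem fin_over {P : ℤ} (hP : P ≠ 0) : {𝔓 : HeightOneSpectrum O | Ov P 𝔓}.Finite := by
  have h0 : (P : O) ≠ 0 := intO_ne (L := L) hP
  have h1 : Ideal.span {(P : O)} ≠ 0 := by
    rw [Ne, Ideal.zero_eq_bot, Ideal.span_singleton_eq_bot]
    exact h0
  refine (Ideal.finite_factors h1).subset fun 𝔓 h𝔓 => ?_
  change 𝔓.asIdeal ∣ _
  rw [Ideal.dvd_span_singleton]
  exact h𝔓

omit [CharZero L] in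
theorem val_lt {P : ℤ} (hP : Prime P) {𝔓 : HeightOneSpectrum O} (h : Ov P 𝔓) (f : ℤ) :
    𝔓.valuation L (f : L) < 1 ↔ P ∣ f := by
  have e : (f : L) = algebraMap O L (f : O) := (map_intCast _ _).symm
  rw [e, HeightOneSpectrum.valuation_lt_one_iff_mem]
  constructor
  · intro hf
    by_contra hn
    obtain ⟨u, w, huw⟩ := (hP.irreducible.coprime_iff_not_dvd.2 hn)
    apply 𝔓.isPrime.ne_top
    rw [Ideal.eq_top_iff_one]
    have e : (1 : O) = (u : O) * (P : O) + (w : O) * (f : O) := by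
      rw [← Int.cast_mul, ← Int.cast_mul, ← Int.cast_add, huw, Int.cast_one]
    rw [e]
    exact Ideal.add_mem _ (Ideal.mul_mem_left _ _ h) (Ideal.mul_mem_left _ _ hf)
  · rintro ⟨g, rfl⟩
    rw [Int.cast_mul]
    exact Ideal.mul_mem_right _ _ h

omit [CharZero L] in
theorem val_le (𝔓 : HeightOneSpectrum O) (f : ℤ) :
    𝔓.valuation L (f : L) ≤ 1 := by
  have e : (f : L) = algebraMap O L (f : O) := (map_intCast _ _).symm
  rw [e]
  exact 𝔓.valuation_le_one _

omit [CharZero L] in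
theorem val_eq {P : ℤ} (hP : Prime P) {𝔓 : HeightOneSpectrum O} (h : Ov P 𝔓) {f : ℤ}
    (hf : ¬ P ∣ f) : 𝔓.valuation L (f : L) = 1 :=
  le_antisymm (val_le 𝔓 f) (not_lt.1 fun h1 => hf ((val_lt hP h f).1 h1))

theorem loc_int [IsIntegralClosure O ℤ L] {P : ℤ} (hP : Prime P) (x : L)
    (hx : ∀ 𝔓 : HeightOneSpectrum O, Ov P 𝔓 → 𝔓.valuation L x ≤ 1) :
    ∃ s : ℤ, ¬ P ∣ s ∧ IsIntegral ℤ ((s : L) * x) := by
  let J : Ideal O :=
    { carrier := {d | ∃ n : O, algebraMap O L d * x = algebraMap O L n}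
      add_mem' := by
        rintro d e ⟨n, hn⟩ ⟨m, hm⟩
        exact ⟨n + m, by rw [map_add, map_add, add_mul, hn, hm]⟩
      zero_mem' := ⟨0, by rw [map_zero, zero_mul]⟩
      smul_mem' := by
        rintro c d ⟨n, hn⟩
        exact ⟨c * n, by rw [smul_eq_mul, map_mul, map_mul, mul_assoc, hn]⟩ }
  have hprime : (Ideal.span {P} : Ideal ℤ).IsPrime :=
    (Ideal.span_singleton_prime hP.ne_zero).2 hP
  have hintO : Algebra.IsIntegral ℤ O := IsIntegralClosure.isIntegral_algebra ℤ L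
  by_cases hJ : J.comap (algebraMap ℤ O) ≤ Ideal.span {P}
  · exfalso
    obtain ⟨𝔔, hJQ, hQp, hQc⟩ := Ideal.exists_ideal_over_prime_of_isIntegral (Ideal.span {P}) J hJ
    have hPQ : (P : O) ∈ 𝔔 := by
      have : P ∈ 𝔔.comap (algebraMap ℤ O) := by
        rw [hQc]; exact Ideal.mem_span_singleton_self P
      exact this
    have hQ0 : 𝔔 ≠ ⊥ := by
      intro h
      rw [h, Ideal.mem_bot] at hPQ
      exact intO_ne (L := L) hP.ne_zero hPQ
    let 𝔓 : HeightOneSpectrum O := ⟨𝔔, hQp, hQ0⟩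
    obtain ⟨n, d, hd⟩ := 𝔓.exists_primeCompl_mul_eq_of_integer x (hx 𝔓 hPQ)
    exact d.2 (hJQ ⟨n, by rw [mul_comm]; exact hd⟩)
  · obtain ⟨s, hs, hsP⟩ := Set.not_subset.1 hJ
    refine ⟨s, fun h => hsP (Ideal.mem_span_singleton.2 h), ?_⟩
    obtain ⟨n, hn⟩ := hs
    have e : (s : L) = algebraMap O L (algebraMap ℤ O s) := by
      rw [eq_intCast, map_intCast]
    rw [e, hn]
    exact (IsIntegralClosure.isIntegral_iff (A := O)).2 ⟨n, rfl⟩

end primes

/-! ### Ternary forms -/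

section fin

variable {F : Type} [Field F] [Finite F]

theorem chev (G : Fin 3 → Fin 3 → F) : ∃ x : Fin 3 → F, x ≠ 0 ∧ ∑ i, ∑ j, G i j * x i * x j = 0 := by
  letI : Fintype F := Fintype.ofFinite F
  obtain ⟨p, hp⟩ := CharP.exists F
  have hprime : p.Prime := CharP.char_is_prime F p
  let f : MvPolynomial (Fin 3) F := ∑ i, ∑ j, MvPolynomial.C (G i j) * MvPolynomial.X i *
    MvPolynomial.X j
  have hdeg : f.totalDegree < Fintype.card (Fin 3) := by
    have h1 : f.totalDegree ≤ 2 := by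
      refine (MvPolynomial.totalDegree_finset_sum _ _).trans (Finset.sup_le fun i _ => ?_)
      refine (MvPolynomial.totalDegree_finset_sum _ _).trans (Finset.sup_le fun j _ => ?_)
      refine (MvPolynomial.totalDegree_mul _ _).trans ?_
      have h2 := MvPolynomial.totalDegree_mul (MvPolynomial.C (G i j)) (MvPolynomial.X i)
      rw [MvPolynomial.totalDegree_C, MvPolynomial.totalDegree_X] at h2
      rw [MvPolynomial.totalDegree_X]
      omega
    rw [Fintype.card_fin]
    omega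
  have hcard := char_dvd_card_solutions p hdeg
  have hev : ∀ x : Fin 3 → F, MvPolynomial.eval x f = ∑ i, ∑ j, G i j * x i * x j := by
    intro x
    simp only [f, map_sum, map_mul, MvPolynomial.eval_C, MvPolynomial.eval_X]
  by_contra hcon
  push Not at hcon
  have h1 : Fintype.card {x : Fin 3 → F // MvPolynomial.eval x f = 0} = 1 := by
    rw [Fintype.card_eq_one_iff]
    refine ⟨⟨0, by rw [hev]; simp⟩, ?_⟩
    rintro ⟨x, hx⟩
    by_contra hne
    have hx0 : x ≠ 0 := fun h => hne (Subtype.ext h)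
    exact hcon x hx0 (by rw [← hev]; exact hx)
  rw [h1] at hcard
  exact hprime.one_lt.ne' (Nat.dvd_one.1 hcard)

end fin

section lift

variable {p : ℕ} [Fact p.Prime]

/-- The ternary form with matrix `G` has a zero over `ℚ_p`. -/
def Iso3 (p : ℕ) [Fact p.Prime] (G : Fin 3 → Fin 3 → ℤ) : Prop :=
  ∃ y : Fin 3 → ℚ_[p], y ≠ 0 ∧ ∑ i : Fin 3, ∑ j : Fin 3, (G i j : ℚ_[p]) * y i * y j = 0

/-- A zero of a quadratic polynomial. -/
theorem lift_quad (h2 : p ≠ 2) (A B c : ℤ) (hB : ¬ (p : ℤ) ∣ B) (hc : (p : ℤ) ∣ c) :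
    ∃ t : ℤ_[p], ‖t‖ < 1 ∧ (A : ℤ_[p]) * t ^ 2 + 2 * B * t + c = 0 := by
  have hp : p.Prime := Fact.out
  obtain ⟨F, hF⟩ : ∃ F : Polynomial ℤ_[p], F = Polynomial.C (A : ℤ_[p]) * Polynomial.X ^ 2 +
    Polynomial.C (2 * B : ℤ_[p]) * Polynomial.X + Polynomial.C (c : ℤ_[p]) := ⟨_, rfl⟩
  have hF0 : Polynomial.aeval (0 : ℤ_[p]) F = c := by
    rw [hF]; simp
  have hF1 : Polynomial.aeval (0 : ℤ_[p]) (Polynomial.derivative F) = ((2 * B : ℤ) : ℤ_[p]) := by
    rw [hF]; simp
  have hn1 : ‖((2 * B : ℤ) : ℤ_[p])‖ = 1 := by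
    refine le_antisymm (PadicInt.norm_le_one _) (not_lt.1 fun h => ?_)
    rw [PadicInt.norm_int_lt_one_iff_dvd] at h
    rcases (Nat.prime_iff_prime_int.1 hp).dvd_or_dvd h with h3 | h3
    · apply h2
      have h4 : (p : ℤ) ∣ ((2 : ℕ) : ℤ) := h3
      rw [Int.natCast_dvd_natCast] at h4
      exact (Nat.prime_dvd_prime_iff_eq hp Nat.prime_two).1 h4
    · exact hB h3
  have hn0 : ‖(c : ℤ_[p])‖ < 1 := (PadicInt.norm_int_lt_one_iff_dvd c).2 hc
  obtain ⟨z, hz, hz1, -⟩ := hensels_lemma (p := p) (F := F) (a := 0) (by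
    rw [hF0, hF1, hn1, one_pow]; exact hn0)
  rw [hF1, hn1, sub_zero] at hz1
  refine ⟨z, hz1, ?_⟩
  rw [hF] at hz
  simpa using hz

theorem lift_form (h2 : p ≠ 2) (G : Fin 3 → Fin 3 → ℤ) (hG : ∀ i j, G i j = G j i) (x : Fin 3 → ℤ)
    (hx : ∃ j, ¬ (p : ℤ) ∣ x j) (hq : (p : ℤ) ∣ ∑ i, ∑ j, G i j * x i * x j) (i0 : Fin 3)
    (hi : ¬ (p : ℤ) ∣ ∑ j, G i0 j * x j) : Iso3 p G := by
  obtain ⟨t, ht, htq⟩ := lift_quad h2 (G i0 i0) (∑ j, G i0 j * x j)
    (∑ i, ∑ j, G i j * x i * x j) hi hq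
  obtain ⟨t', ht'⟩ : ∃ t' : ℚ_[p], t' = (t : ℚ_[p]) := ⟨_, rfl⟩
  have htq' : (G i0 i0 : ℚ_[p]) * t' ^ 2 + 2 * ((∑ j, G i0 j * x j : ℤ) : ℚ_[p]) * t' +
      ((∑ i, ∑ j, G i j * x i * x j : ℤ) : ℚ_[p]) = 0 := by
    rw [ht']
    have := congrArg (fun z : ℤ_[p] => (z : ℚ_[p])) htq
    have e2 : ((2 : ℤ_[p]) : ℚ_[p]) = 2 := rfl
    simpa [e2] using this
  have htn : ‖t'‖ < 1 := by rw [ht']; exact ht
  refine ⟨fun i => (x i : ℚ_[p]) + if i = i0 then t' else 0, ?_, ?_⟩
  · obtain ⟨j, hj⟩ := hx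
    intro h0
    have h1 := congrFun h0 j
    have h3 : (x j : ℚ_[p]) = -(if j = i0 then t' else 0) := by
      simp only [Pi.zero_apply] at h1
      linear_combination h1
    apply hj
    rw [← Padic.norm_intCast_lt_one_iff, h3, norm_neg]
    split_ifs
    · exact htn
    · rw [norm_zero]; exact one_pos
  · have h01 := hG 0 1
    have h02 := hG 0 2
    have h12 := hG 1 2
    simp only [Fin.sum_univ_three, Int.cast_add, Int.cast_mul] at htq' ⊢
    fin_cases i0
    · simp only [Fin.zero_eta, Fin.isValue, if_true, one_ne_zero, if_false, add_zero,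
        Fin.reduceEq, ← h01, ← h02, ← h12] at htq' ⊢
      linear_combination htq'
    · simp only [Fin.mk_one, Fin.isValue, if_true, one_ne_zero, if_false, add_zero,
        Fin.reduceEq, zero_ne_one, ← h01, ← h02, ← h12] at htq' ⊢
      linear_combination htq'
    · simp only [Fin.reduceFinMk, Fin.isValue, if_true, one_ne_zero, if_false, add_zero,
        Fin.reduceEq, ← h01, ← h02, ← h12] at htq' ⊢
      linear_combination htq'

/-- A ternary form with unit determinant has a zero. -/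
theorem iso_unim (h2 : p ≠ 2) (G : Fin 3 → Fin 3 → ℤ) (hG : ∀ i j, G i j = G j i)
    (hdet : ¬ (p : ℤ) ∣ (Matrix.of G).det) : Iso3 p G := by
  obtain ⟨x, hx, hx0⟩ := chev fun i j => ((G i j : ℤ) : ZMod p)
  choose y hy using fun i => ZMod.intCast_surjective (x i)
  have hex : ∃ i0, ¬ (p : ℤ) ∣ ∑ j, G i0 j * y j := by
    by_contra hcon
    push Not at hcon
    apply hx
    refine Matrix.eq_zero_of_mulVec_eq_zero (M := (Matrix.of G).map (Int.castRingHom (ZMod p))) ?_ ?_
    · rw [← RingHom.mapMatrix_apply, ← RingHom.map_det]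
      intro h
      exact hdet ((ZMod.intCast_zmod_eq_zero_iff_dvd _ _).1 h)
    · funext i
      have := (ZMod.intCast_zmod_eq_zero_iff_dvd _ _).2 (hcon i)
      rw [Int.cast_sum] at this
      simp only [Int.cast_mul, hy] at this
      exact this
  obtain ⟨i0, hi0⟩ := hex
  refine lift_form h2 G hG y ?_ ?_ i0 hi0
  · by_contra hcon
    push Not at hcon
    apply hx
    funext i
    rw [← hy i, (ZMod.intCast_zmod_eq_zero_iff_dvd _ _).2 (hcon i)]
    rfl
  · rw [← ZMod.intCast_zmod_eq_zero_iff_dvd, Int.cast_sum]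
    simp only [Int.cast_sum, Int.cast_mul, hy]
    exact hx0

end lift

end Pool.Agent.N803.PQ
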