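import Pool.Agent.N803.PQ.Loc2

/-!
Project PQ (helper922), part LOC2 (helper803): the local condition at `2` implies isotropy.
-/

set_option autoImplicit false
set_option linter.all false

open Polynomial
open scoped Classical

namespace Pool.Agent.N803.PQ

open Pool.Agent.N922.PQ

section pb

variable {L : Type} [Field L] [CharZero L] {a b : ℤ} {θ : L}

theorem basis_pow (h : IsCub a b θ) (i : Fin 3) : h.basis i = θ ^ (i : ℕ) := by
  rw [h.basis_apply]
  fin_cases i <;> simp [vec]

/-- The power basis. -/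
noncomputable def pbas (h : IsCub a b θ) : PowerBasis ℚ L where
  gen := θ
  dim := 3
  basis := h.basis
  basis_eq_pow := basis_pow h

/-- `X ^ 3 + a X + b` over `ℚ` -/
noncomputable def qp (a b : ℤ) : ℚ[X] := X ^ 3 + C (a : ℚ) * X + C (b : ℚ)

theorem qp_map (a b : ℤ) : (qp a b).map (algebraMap ℚ ℚ_[2]) = fp a b := by
  unfold qp fp
  simp

theorem qp_min (h : IsCub a b θ) : minpoly ℚ θ = qp a b := by
  have hd : (minpoly ℚ θ).natDegree = 3 := (pbas h).natDegree_minpoly
  have hm : (qp a b).Monic := by unfold qp; monicity!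
  have hn : (qp a b).natDegree = 3 := by unfold qp; compute_degree!
  have h0 : aeval θ (qp a b) = 0 := by
    unfold qp
    simp only [map_add, map_mul, map_pow, aeval_X, aeval_C, eq_ratCast, Rat.cast_intCast]
    exact h.root
  have hint : IsIntegral ℚ θ := ⟨qp a b, hm, h0⟩
  have hdvd := minpoly.dvd ℚ θ h0
  exact (Polynomial.eq_of_monic_of_dvd_of_natDegree_le (minpoly.monic hint) hm hdvd
    (by rw [hd, hn])).symm

end pb

section emb

variable (a b : ℤ)

/-- The basis of the cubic algebra over `ℚ_2`. -/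
noncomputable def bas : Module.Basis (Fin 3) ℚ_[2] (AdjoinRoot (fp a b)) :=
  (AdjoinRoot.powerBasis (fp_ne a b)).basis.reindex
    (finCongr (by rw [AdjoinRoot.powerBasis_dim, fp_nd]))

theorem bas_apply (i : Fin 3) : bas a b i = AdjoinRoot.root (fp a b) ^ (i : ℕ) := by
  unfold bas
  rw [Module.Basis.reindex_apply, PowerBasis.coe_basis, AdjoinRoot.powerBasis_gen]
  rfl

/-- The coefficient of `ϑ ^ 2`. -/
noncomputable def c2 : AdjoinRoot (fp a b) →ₗ[ℚ_[2]] ℚ_[2] := (bas a b).coord 2

theorem c2_pow (i : Fin 3) : c2 a b (AdjoinRoot.root (fp a b) ^ (i : ℕ)) = if i = 2 then 1 else 0 := by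
  rw [← bas_apply]
  unfold c2
  rw [Module.Basis.coord_apply, Module.Basis.repr_self, Finsupp.single_apply]

theorem c2_one : c2 a b 1 = 0 := by
  have := c2_pow a b 0
  simpa using this

theorem c2_root : c2 a b (AdjoinRoot.root (fp a b)) = 0 := by
  have := c2_pow a b 1
  simpa using this

theorem c2_of (x : ℚ_[2]) : c2 a b (AdjoinRoot.of (fp a b) x) = 0 := by
  have e : AdjoinRoot.of (fp a b) x = x • (1 : AdjoinRoot (fp a b)) := by
    rw [Algebra.smul_def, mul_one]
    rfl
  rw [e, map_smul, c2_one, smul_zero]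

variable {a b}

theorem c2_sum (v : Fin 3 → ℚ_[2]) : c2 a b (∑ i : Fin 3, v i • AdjoinRoot.root (fp a b) ^ (i : ℕ)) =
    v 2 := by
  rw [map_sum]
  simp only [map_smul, c2_pow, smul_eq_mul]
  simp

variable {L : Type} [Field L] [CharZero L] {θ : L}

/-- The embedding of `L`. -/
noncomputable def emb (h : IsCub a b θ) : L →ₐ[ℚ] AdjoinRoot (fp a b) :=
  (pbas h).lift (AdjoinRoot.root (fp a b)) (by
    change aeval _ (minpoly ℚ θ) = 0
    rw [qp_min h]
    have h1 : aeval (AdjoinRoot.root (fp a b)) ((qp a b).map (algebraMap ℚ ℚ_[2])) = 0 := by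
      rw [qp_map, AdjoinRoot.aeval_eq]
      exact AdjoinRoot.mk_self
    rwa [aeval_map_algebraMap] at h1)

theorem emb_gen (h : IsCub a b θ) : emb h θ = AdjoinRoot.root (fp a b) :=
  (pbas h).lift_gen _ _

theorem emb_co (h : IsCub a b θ) (x : L) : c2 a b (emb h x) = ((h.co 2 x : ℚ) : ℚ_[2]) := by
  have e := h.basis.sum_repr x
  conv_lhs => rw [← e]
  rw [map_sum]
  have e2 : ∀ i : Fin 3, emb h (h.basis.repr x i • h.basis i) =
      ((h.basis.repr x i : ℚ) : ℚ_[2]) • AdjoinRoot.root (fp a b) ^ (i : ℕ) := by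
    intro i
    rw [map_smul, basis_pow, map_pow, emb_gen, Algebra.smul_def, Algebra.smul_def]
    congr 1
  simp only [e2]
  rw [c2_sum]
  rfl

theorem emb_mk (h : IsCub a b θ) (p : ℚ[X]) :
    AdjoinRoot.mk (fp a b) (p.map (algebraMap ℚ ℚ_[2])) = emb h (aeval θ p) := by
  rw [← AdjoinRoot.aeval_eq, aeval_map_algebraMap, ← emb_gen h, aeval_algHom_apply]

end emb

/-- Part ISO2. -/
theorem iso2 : S_ISO2 := by
  intro L _ _ a b θ h hz α hα hloc
  haveI : Fact (Irreducible (fp a b)) := ⟨fp_irr hz⟩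
  obtain ⟨r, s, t, hrst⟩ := h.gen α
  have hp : aeval θ (C r + C s * X + C t * X ^ 2 : ℚ[X]) = α := by
    simp only [map_add, map_mul, map_pow, aeval_X, aeval_C, eq_ratCast]
    exact hrst.symm
  have h1 := (pl2_iff _).1 (hloc _ hp)
  rw [emb_mk h, hp] at h1
  have hA0 : emb h α ≠ 0 := fun h0 => hα ((map_eq_zero (emb h)).1 h0)
  have key : ∃ g : AdjoinRoot (fp a b), g ≠ 0 ∧ c2 a b (g * g / emb h α) = 0 := by
    rcases h1 with ⟨g, hg⟩ | ⟨x, y, hy, hxy, g, hg⟩
    · have hg0 : g ≠ 0 := by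
        rintro rfl
        exact hA0 (by rw [hg]; ring)
      refine ⟨g, hg0, ?_⟩
      rw [hg, ← sq, div_self (pow_ne_zero 2 hg0), c2_one]
    · have hx0 : AdjoinRoot.of (fp a b) x - AdjoinRoot.root (fp a b) ≠ 0 := by
        intro h0
        have hr := root_eq (a := a) (b := b)
        rw [← sub_eq_zero.1 h0, ← map_pow, ← map_mul, ← map_add, ← map_add, map_eq_zero] at hr
        exact noroot hz x hr
      have hg0 : g ≠ 0 := by
        rintro rfl
        exact mul_ne_zero hx0 hA0 (by rw [hg]; ring)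
      refine ⟨g, hg0, ?_⟩
      rw [← sq, ← hg, mul_div_assoc, div_self hA0, mul_one, map_sub, c2_of, c2_root, sub_zero]
  obtain ⟨g, hg0, hg⟩ := key
  refine ⟨fun i => (bas a b).repr g i, ?_, ?_⟩
  · intro h0
    apply hg0
    rw [← (bas a b).sum_repr g]
    exact Finset.sum_eq_zero fun i _ => by rw [show (bas a b).repr g i = 0 from congrFun h0 i, zero_smul]
  · rw [← hg]
    have e := (bas a b).sum_repr g
    conv_rhs => rw [← e]
    rw [Finset.sum_mul_sum, Finset.sum_div, map_sum]
    refine Finset.sum_congr rfl fun i _ => ?_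
    rw [Finset.sum_div, map_sum]
    refine Finset.sum_congr rfl fun j _ => ?_
    have e3 : (bas a b).repr g i • bas a b i * (bas a b).repr g j • bas a b j / emb h α =
        ((bas a b).repr g i * (bas a b).repr g j) • emb h (θ ^ (i : ℕ) * θ ^ (j : ℕ) / α) := by
      rw [smul_mul_smul_comm, bas_apply, bas_apply, Algebra.smul_def, mul_div_assoc,
        ← Algebra.smul_def, map_div₀, map_mul (emb h), map_pow, map_pow, emb_gen h]
    rw [e3, map_smul, smul_eq_mul, emb_co]
    ring

end Pool.Agent.N803.PQ
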