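import Pool.Agent.N922.PQ.Lat

/-!
Project PQ (helper922), part LOC2 (helper803): the local image at `2` is a group, and the local
condition at `2` implies isotropy.
-/

set_option autoImplicit false
set_option linter.all false

open Polynomial
open scoped Classical

namespace Pool.Agent.N803.PQ

open Pool.Agent.N922.PQ

/-- `X ^ 3 + a X + b` over `ℚ_2` -/
noncomputable def fp (a b : ℤ) : ℚ_[2][X] := X ^ 3 + C (a : ℚ_[2]) * X + C (b : ℚ_[2])

theorem fp_nd (a b : ℤ) : (fp a b).natDegree = 3 := by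
  unfold fp; compute_degree!

theorem fp_monic (a b : ℤ) : (fp a b).Monic := by
  unfold fp; monicity!

theorem fp_ne (a b : ℤ) : fp a b ≠ 0 := (fp_monic a b).ne_zero

/-- No root in `ℚ_2`. -/
theorem noroot {a b : ℤ} (h : ∀ z : ℤ, ¬ (2 : ℤ) ∣ z ^ 3 + a * z + b) (x : ℚ_[2]) :
    x ^ 3 + a * x + b ≠ 0 := by
  intro hx
  have hint : IsIntegral ℤ_[2] x := by
    refine ⟨X ^ 3 + C (a : ℤ_[2]) * X + C (b : ℤ_[2]), by monicity!, ?_⟩
    simp only [eval₂_add, eval₂_mul, eval₂_pow, eval₂_X, eval₂_C]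
    rw [map_intCast, map_intCast]
    exact hx
  obtain ⟨z, hz⟩ := IsIntegrallyClosed.isIntegral_iff.1 hint
  have hz0 : z ^ 3 + (a : ℤ_[2]) * z + (b : ℤ_[2]) = 0 := by
    apply IsFractionRing.injective ℤ_[2] ℚ_[2]
    rw [map_add, map_add, map_mul, map_pow, hz, map_intCast, map_intCast, map_zero]
    exact hx
  obtain ⟨n, hn⟩ := ZMod.intCast_surjective (PadicInt.toZMod z)
  have h1 := congrArg PadicInt.toZMod hz0
  rw [map_add, map_add, map_mul, map_pow, map_intCast, map_intCast, map_zero, ← hn] at h1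
  apply h n
  have h2 : ((n ^ 3 + a * n + b : ℤ) : ZMod 2) = 0 := by push_cast; exact h1
  exact (ZMod.intCast_zmod_eq_zero_iff_dvd _ _).1 h2

theorem fp_irr {a b : ℤ} (h : ∀ z : ℤ, ¬ (2 : ℤ) ∣ z ^ 3 + a * z + b) : Irreducible (fp a b) := by
  refine ((fp_monic a b).irreducible_iff_roots_eq_zero_of_degree_le_three ?_ ?_).2 ?_
  · rw [fp_nd]; norm_num
  · rw [fp_nd]
  · rw [Multiset.eq_zero_iff_forall_notMem]
    intro x hx
    have h1 := (mem_roots (fp_ne a b)).1 hx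
    refine noroot h x ?_
    simpa [fp, IsRoot.def] using h1

section fld

variable {a b : ℤ}

/-- The image of the local condition in the cubic algebra. -/
def PP (a b : ℤ) (α : AdjoinRoot (fp a b)) : Prop :=
  (∃ g, α = g ^ 2) ∨ ∃ x y : ℚ_[2], y ≠ 0 ∧ y ^ 2 = x ^ 3 + a * x + b ∧
    ∃ g, (AdjoinRoot.of (fp a b) x - AdjoinRoot.root (fp a b)) * α = g ^ 2

theorem pl2_iff (h : ℚ_[2][X]) : PL2 a b h ↔ PP a b (AdjoinRoot.mk (fp a b) h) := by
  have key : ∀ u : ℚ_[2][X], (∃ g : ℚ_[2][X], fp a b ∣ u - g ^ 2) ↔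
      ∃ g, AdjoinRoot.mk (fp a b) u = g ^ 2 := by
    intro u
    constructor
    · rintro ⟨g, hg⟩
      exact ⟨AdjoinRoot.mk _ g, by rw [← map_pow]; exact AdjoinRoot.mk_eq_mk.2 hg⟩
    · rintro ⟨g, hg⟩
      obtain ⟨g, rfl⟩ := AdjoinRoot.mk_surjective g
      rw [← map_pow] at hg
      exact ⟨g, AdjoinRoot.mk_eq_mk.1 hg⟩
  unfold PL2 PP
  refine or_congr (key h) ?_
  refine exists_congr fun x => exists_congr fun y => and_congr_right fun _ =>
    and_congr_right fun _ => ?_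
  have := key ((C x - X) * h)
  rw [map_mul, map_sub, AdjoinRoot.mk_C, AdjoinRoot.mk_X] at this
  exact this

theorem root_eq : AdjoinRoot.root (fp a b) ^ 3 + AdjoinRoot.of (fp a b) (a : ℚ_[2]) *
    AdjoinRoot.root (fp a b) + AdjoinRoot.of (fp a b) (b : ℚ_[2]) = 0 := by
  have h : AdjoinRoot.mk (fp a b) (fp a b) = 0 := AdjoinRoot.mk_self
  conv_lhs at h => rw [show AdjoinRoot.mk (fp a b) (fp a b) = AdjoinRoot.mk (fp a b)
    (X ^ 3 + C (a : ℚ_[2]) * X + C (b : ℚ_[2])) from rfl]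
  rwa [map_add, map_add, map_mul, map_pow, AdjoinRoot.mk_C, AdjoinRoot.mk_C, AdjoinRoot.mk_X] at h

end fld

theorem pp_mul {a b : ℤ} (h : ∀ z : ℤ, ¬ (2 : ℤ) ∣ z ^ 3 + a * z + b)
    {α β : AdjoinRoot (fp a b)} (hα : PP a b α) (hβ : PP a b β) : PP a b (α * β) := by
  haveI : Fact (Irreducible (fp a b)) := ⟨fp_irr h⟩
  obtain ⟨ϑ, hϑ⟩ : ∃ t, t = AdjoinRoot.root (fp a b) := ⟨_, rfl⟩
  obtain ⟨ι, hι⟩ : ∃ t, t = AdjoinRoot.of (fp a b) := ⟨_, rfl⟩
  have hr := root_eq (a := a) (b := b)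
  unfold PP at *
  simp only [← hϑ, ← hι] at hα hβ hr ⊢
  have hne : ∀ x y : ℚ_[2], y ≠ 0 → y ^ 2 = x ^ 3 + a * x + b → ι x - ϑ ≠ 0 := by
    intro x y hy hxy h0
    have e : ϑ = ι x := (sub_eq_zero.1 h0).symm
    rw [e, ← map_pow, ← map_mul, ← map_add, ← map_add, ← hxy, map_pow] at hr
    exact hy ((map_eq_zero ι).1 (pow_eq_zero_iff two_ne_zero |>.1 hr))
  rcases hα with ⟨g, hg⟩ | ⟨x₁, y₁, hy₁, hxy₁, g, hg⟩
  · rcases hβ with ⟨k, hk⟩ | ⟨x₂, y₂, hy₂, hxy₂, k, hk⟩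
    · exact Or.inl ⟨g * k, by rw [hg, hk]; ring⟩
    · exact Or.inr ⟨x₂, y₂, hy₂, hxy₂, g * k, by rw [hg, mul_pow, ← hk]; ring⟩
  · rcases hβ with ⟨k, hk⟩ | ⟨x₂, y₂, hy₂, hxy₂, k, hk⟩
    · exact Or.inr ⟨x₁, y₁, hy₁, hxy₁, g * k, by rw [hk, mul_pow, ← hg]; ring⟩
    · have h₁ := hne x₁ y₁ hy₁ hxy₁
      have h₂ := hne x₂ y₂ hy₂ hxy₂
      by_cases hx : x₁ = x₂
      · subst hx
        refine Or.inl ⟨g * k / (ι x₁ - ϑ), ?_⟩
        rw [div_pow, eq_div_iff (pow_ne_zero 2 h₁), mul_pow, ← hg, ← hk]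
        ring
      · have hx' : x₂ - x₁ ≠ 0 := sub_ne_zero.2 (Ne.symm hx)
        obtain ⟨m, hm⟩ : ∃ m, m = (y₂ - y₁) / (x₂ - x₁) := ⟨_, rfl⟩
        obtain ⟨c, hc⟩ : ∃ c, c = y₁ - m * x₁ := ⟨_, rfl⟩
        have e₁ : y₁ = m * x₁ + c := by rw [hc]; ring
        have e₂ : y₂ = m * x₂ + c := by
          rw [hc, hm]; field_simp; ring
        rw [e₁] at hxy₁
        rw [e₂] at hxy₂
        obtain ⟨x₃, hx₃⟩ : ∃ t, t = m ^ 2 - x₁ - x₂ := ⟨_, rfl⟩
        have hA : (a : ℚ_[2]) - 2 * m * c = x₁ * x₂ + x₃ * (x₁ + x₂) := by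
          have h5 : (x₂ - x₁) * ((a : ℚ_[2]) - 2 * m * c - (x₁ * x₂ + x₃ * (x₁ + x₂))) = 0 := by
            rw [hx₃]
            linear_combination hxy₁ - hxy₂
          have h6 := (mul_eq_zero.1 h5).resolve_left hx'
          linear_combination h6
        have hB : (b : ℚ_[2]) - c ^ 2 = - (x₁ * x₂ * x₃) := by
          have h7 : (a : ℚ_[2]) = 2 * m * c + (x₁ * x₂ + x₃ * (x₁ + x₂)) := by
            linear_combination hA
          rw [h7] at hxy₁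
          rw [hx₃] at hxy₁ ⊢
          linear_combination -hxy₁
        have hxy₃ : (m * x₃ + c) ^ 2 = x₃ ^ 3 + a * x₃ + b := by
          have h8 : m ^ 2 = x₁ + x₂ + x₃ := by rw [hx₃]; ring
          linear_combination x₃ ^ 2 * h8 - x₃ * hA - hB
        have hy₃ : m * x₃ + c ≠ 0 := by
          intro h0
          rw [h0] at hxy₃
          exact noroot h x₃ (by rw [← hxy₃]; ring)
        refine Or.inr ⟨x₃, m * x₃ + c, hy₃, hxy₃,
          (ι m * ϑ + ι c) * g * k / ((ι x₁ - ϑ) * (ι x₂ - ϑ)), ?_⟩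
        have hprod : (ι x₁ - ϑ) * (ι x₂ - ϑ) * (ι x₃ - ϑ) = (ι m * ϑ + ι c) ^ 2 := by
          have hA' := congrArg ι hA
          have hB' := congrArg ι hB
          have hC' := congrArg ι hx₃
          simp only [map_sub, map_mul, map_add, map_neg, map_pow, map_ofNat] at hA' hB' hC'
          linear_combination -hr + ϑ * hA' + hB' + ϑ ^ 2 * hC'
        rw [div_pow, eq_div_iff (pow_ne_zero 2 (mul_ne_zero h₁ h₂))]
        rw [mul_pow, mul_pow, mul_pow, ← hg, ← hk, ← hprod]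
        ring

/-- Part PLM. -/
theorem plm : S_PLM := by
  intro a b h h' hz hh hh'
  rw [pl2_iff] at *
  rw [map_mul]
  exact pp_mul hz hh hh'

end Pool.Agent.N803.PQ
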