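import Pool.Agent.N803.PQ.Base

/-!
Project PQ (helper922), part UNIM (helper803): even valuations give isotropy over `ℚ_p`, `p` odd.
Adapted from `Pool/Agent/N765/PP` (helper765).
-/

set_option autoImplicit false
set_option linter.all false

open IsDedekindDomain Matrix
open scoped Classical

namespace Pool.Agent.N803.PQ

open Pool.Agent.N922.PQ
open Pool.Agent.N874.PP (Ev Sq1 U0)

section coords

variable {L : Type} [Field L] [CharZero L] {a b : ℤ} {θ : L}

theorem co_sum (h : IsCub a b θ) (c : Fin 3 → ℚ) (i : Fin 3) :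
    h.co i ((c 0 : L) + (c 1 : L) * θ + (c 2 : L) * θ ^ 2) = c i := by
  have e : (c 0 : L) + (c 1 : L) * θ + (c 2 : L) * θ ^ 2 = ∑ j, c j • h.basis j := by
    rw [Fin.sum_univ_three]
    simp only [h.basis_apply, Pool.Agent.N922.PQ.vec, Rat.smul_def]
    simp
  rw [e, IsCub.co, Module.Basis.coord_apply, Module.Basis.repr_sum_self]

theorem co_crd (h : IsCub a b θ) {u : Fin 3 → ℤ} {x : L} (hx : Crd θ u x) (i : Fin 3) :
    h.co i x = (u i : ℚ) := by
  have hx' : x = (u 0 : L) + (u 1 : L) * θ + (u 2 : L) * θ ^ 2 := hx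
  have := co_sum h (fun j => (u j : ℚ)) i
  rw [← this, hx']
  simp only [Rat.cast_intCast]

/-- The coordinates of a product. -/
def mulc {R : Type} [CommRing R] (a b : R) (u v : Fin 3 → R) : Fin 3 → R :=
  ![u 0 * v 0 - b * (u 1 * v 2 + u 2 * v 1),
    u 0 * v 1 + u 1 * v 0 - a * (u 1 * v 2 + u 2 * v 1) - b * (u 2 * v 2),
    u 0 * v 2 + u 1 * v 1 + u 2 * v 0 - a * (u 2 * v 2)]

theorem crd_mul (h : IsCub a b θ) {u w : Fin 3 → ℤ} {x y : L} (hx : Crd θ u x)
    (hy : Crd θ w y) : Crd θ (mulc a b u w) (x * y) := by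
  have hx' : x = (u 0 : L) + (u 1 : L) * θ + (u 2 : L) * θ ^ 2 := hx
  have hy' : y = (w 0 : L) + (w 1 : L) * θ + (w 2 : L) * θ ^ 2 := hy
  have hr := h.root
  change x * y = _
  simp only [mulc, Matrix.cons_val_zero, Matrix.cons_val_one, Matrix.cons_val_two, Matrix.head_cons,
    Matrix.tail_cons, Int.cast_sub, Int.cast_add, Int.cast_mul, Matrix.cons_val]
  rw [hx', hy']
  linear_combination ((u 1 : L) * (w 2 : L) + (u 2 : L) * (w 1 : L) +
    (u 2 : L) * (w 2 : L) * θ) * hr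

theorem crd_int (f : ℤ) : Crd θ (![f, 0, 0] : Fin 3 → ℤ) (f : L) := by
  change (f : L) = _
  simp

theorem crd_uniq (h : IsCub a b θ) {u w : Fin 3 → ℤ} {x : L} (hx : Crd θ u x)
    (hy : Crd θ w x) : u = w := by
  funext i
  have := (co_crd h hx i).symm.trans (co_crd h hy i)
  exact_mod_cast this

/-! ### Change of basis -/

/-- Isotropy with respect to a family. -/
def IsoF (h : IsCub a b θ) (p : ℕ) [Fact p.Prime] (α : L) (f : Fin 3 → L) : Prop :=
  ∃ y : Fin 3 → ℚ_[p], y ≠ 0 ∧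
    ∑ i : Fin 3, ∑ j : Fin 3, ((h.co 2 (f i * f j / α) : ℚ) : ℚ_[p]) * y i * y j = 0

theorem iso_change (h : IsCub a b θ) (p : ℕ) [Fact p.Prime] (α : L) {f g : Fin 3 → L}
    (hf : LinearIndependent ℚ f) (hg : LinearIndependent ℚ g) (H : IsoF h p α f) :
    IsoF h p α g := by
  have hrank : Fintype.card (Fin 3) = Module.finrank ℚ L := by rw [h.rank]; rfl
  let bf := basisOfLinearIndependentOfCardEqFinrank hf hrank
  let bg := basisOfLinearIndependentOfCardEqFinrank hg hrank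
  have hbf : ∀ i, bf i = f i := fun i => by
    simp only [bf, coe_basisOfLinearIndependentOfCardEqFinrank]
  have hbg : ∀ i, bg i = g i := fun i => by
    simp only [bg, coe_basisOfLinearIndependentOfCardEqFinrank]
  let M : Matrix (Fin 3) (Fin 3) ℚ := fun i j => bg.repr (f i) j
  let N : Matrix (Fin 3) (Fin 3) ℚ := fun i j => bf.repr (g i) j
  have hM : ∀ i, f i = ∑ j, M i j • g j := fun i => by
    have := bg.sum_repr (f i)
    simp only [hbg] at this
    exact this.symm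
  have hN : ∀ i, g i = ∑ j, N i j • f j := fun i => by
    have := bf.sum_repr (g i)
    simp only [hbf] at this
    exact this.symm
  have hMN : M * N = 1 := by
    ext i l
    have e1 : f i = ∑ l, (M * N) i l • f l := by
      rw [hM i]
      simp_rw [Matrix.mul_apply, Finset.sum_smul]
      rw [Finset.sum_comm]
      refine Finset.sum_congr rfl fun j _ => ?_
      conv_lhs => rw [hN j]
      rw [Finset.smul_sum]
      refine Finset.sum_congr rfl fun l _ => ?_
      rw [smul_smul]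
    have e2 : bf.repr (f i) l = (M * N) i l := by
      conv_lhs => rw [e1]
      simp_rw [← hbf]
      rw [bf.repr_sum_self]
    rw [← e2, ← hbf i, bf.repr_self, Matrix.one_apply, Finsupp.single_apply]
  obtain ⟨y, hy, hy0⟩ := H
  let φ : ℚ →+* ℚ_[p] := Rat.castHom ℚ_[p]
  let M' := M.map φ
  let N' := N.map φ
  have hMN' : M' * N' = 1 := by
    have := congrArg (fun A : Matrix (Fin 3) (Fin 3) ℚ => A.map φ) hMN
    simp only [Matrix.map_mul] at this
    rw [this]
    exact Matrix.map_one φ (map_zero φ) (map_one φ)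
  refine ⟨y ᵥ* M', ?_, ?_⟩
  · intro h0
    apply hy
    have : (y ᵥ* M') ᵥ* N' = y := by rw [Matrix.vecMul_vecMul, hMN', Matrix.vecMul_one]
    rw [← this, h0, Matrix.zero_vecMul]
  · have hG : ∀ i j, h.co 2 (f i * f j / α) =
        ∑ k, ∑ l, M i k * M j l * h.co 2 (g k * g l / α) := by
      intro i j
      have e : f i * f j / α = ∑ k, ∑ l, (M i k * M j l) • (g k * g l / α) := by
        conv_lhs => rw [hM i, hM j]
        rw [Finset.sum_mul_sum, Finset.sum_div]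
        refine Finset.sum_congr rfl fun k _ => ?_
        rw [Finset.sum_div]
        refine Finset.sum_congr rfl fun l _ => ?_
        rw [smul_mul_smul_comm, smul_div_assoc]
      rw [e, map_sum]
      refine Finset.sum_congr rfl fun k _ => ?_
      rw [map_sum]
      refine Finset.sum_congr rfl fun l _ => ?_
      rw [map_smul, smul_eq_mul]
    have hx : ∀ j, (y ᵥ* M') j = ∑ i, y i * ((M i j : ℚ) : ℚ_[p]) := fun j => rfl
    rw [← hy0]
    simp only [hx, hG, Rat.cast_sum, Rat.cast_mul]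
    simp only [Fin.sum_univ_three]
    change _ = _
    ring

end coords

section hk

/-- The coordinates of `θ ^ i`. -/
def ee (R : Type) [CommRing R] : Fin 3 → Fin 3 → R :=
  ![![1, 0, 0], ![0, 1, 0], ![0, 0, 1]]

/-- The matrix of `c₂ (d x y)`. -/
def hk {R : Type} [CommRing R] (a b : R) (d : Fin 3 → R) (i j : Fin 3) : R :=
  mulc a b d (mulc a b (ee R i) (ee R j)) 2

variable {R : Type} [CommRing R]

theorem hk_symm (a b : R) (d : Fin 3 → R) (i j : Fin 3) : hk a b d i j = hk a b d j i := by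
  simp only [hk, mulc, Matrix.cons_val_zero, Matrix.cons_val_one, Matrix.cons_val]
  ring

theorem hk_00 (a b : R) (d : Fin 3 → R) : hk a b d 0 0 = d 2 := by
  simp [hk, mulc, ee]

theorem hk_01 (a b : R) (d : Fin 3 → R) : hk a b d 0 1 = d 1 := by
  simp [hk, mulc, ee]

theorem hk_02 (a b : R) (d : Fin 3 → R) : hk a b d 0 2 = d 0 - a * d 2 := by
  simp [hk, mulc, ee]

theorem hk_11 (a b : R) (d : Fin 3 → R) : hk a b d 1 1 = d 0 - a * d 2 := by
  simp [hk, mulc, ee]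

theorem hk_12 (a b : R) (d : Fin 3 → R) : hk a b d 1 2 = - a * d 1 - b * d 2 := by
  simp [hk, mulc, ee]; ring

theorem hk_22 (a b : R) (d : Fin 3 → R) : hk a b d 2 2 = - a * d 0 + a ^ 2 * d 2 - b * d 1 := by
  simp [hk, mulc, ee]; ring

theorem hk_det (a b : R) (d : Fin 3 → R) : (Matrix.of (hk a b d)).det =
    d 2 * ((d 0 - a * d 2) * (- a * d 0 + a ^ 2 * d 2 - b * d 1) - (- a * d 1 - b * d 2) ^ 2) -
    d 1 * (d 1 * (- a * d 0 + a ^ 2 * d 2 - b * d 1) - (- a * d 1 - b * d 2) * (d 0 - a * d 2)) +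
    (d 0 - a * d 2) * (d 1 * (- a * d 1 - b * d 2) - (d 0 - a * d 2) ^ 2) := by
  rw [Matrix.det_fin_three]
  simp only [Matrix.of_apply]
  rw [hk_symm a b d 1 0, hk_symm a b d 2 0, hk_symm a b d 2 1, hk_00, hk_01, hk_02, hk_11, hk_12,
    hk_22]
  ring

theorem hk_det_mul (a b : R) (d e : Fin 3 → R) : (Matrix.of (hk a b d)).det *
    (Matrix.of (hk a b e)).det = - (Matrix.of (hk a b (mulc a b d e))).det := by
  rw [hk_det, hk_det, hk_det]
  simp only [mulc, Matrix.cons_val_zero, Matrix.cons_val_one, Matrix.cons_val]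
  ring

theorem hk_det_int (a b s : R) : (Matrix.of (hk a b ![s, 0, 0])).det = - s ^ 3 := by
  rw [hk_det]
  simp only [Matrix.cons_val_zero, Matrix.cons_val_one, Matrix.cons_val]
  ring

end hk

section

variable {L : Type} [Field L] [CharZero L] {a b : ℤ} {θ : L}

theorem ee_crd (i : Fin 3) : Crd θ (ee ℤ i) (θ ^ (i : ℕ)) := by
  change θ ^ (i : ℕ) = _
  fin_cases i <;> simp [ee]

/-- The form in the basis `g θ ^ i`. -/
theorem gram (h : IsCub a b θ) {g α : L} {d : Fin 3 → ℤ} (hd : Crd θ d (g ^ 2 / α))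
    (i j : Fin 3) : h.co 2 ((g * θ ^ (i : ℕ)) * (g * θ ^ (j : ℕ)) / α) =
      ((hk a b d i j : ℤ) : ℚ) := by
  have e : (g * θ ^ (i : ℕ)) * (g * θ ^ (j : ℕ)) / α =
      (g ^ 2 / α) * (θ ^ (i : ℕ) * θ ^ (j : ℕ)) := by ring
  rw [e, co_crd h (crd_mul h hd (crd_mul h (ee_crd i) (ee_crd j))) 2]
  rfl

theorem li_pow (h : IsCub a b θ) : LinearIndependent ℚ fun i : Fin 3 => θ ^ (i : ℕ) := by
  have h1 := h.basis.linearIndependent
  have e : (h.basis : Fin 3 → L) = fun i : Fin 3 => θ ^ (i : ℕ) := by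
    funext i
    rw [h.basis_apply]
    fin_cases i <;> simp [Pool.Agent.N922.PQ.vec]
  rwa [e] at h1

theorem li_mul {f : Fin 3 → L} (hf : LinearIndependent ℚ f) {g : L} (hg : g ≠ 0) :
    LinearIndependent ℚ fun i => g * f i := by
  rw [Fintype.linearIndependent_iff] at hf ⊢
  intro c hc
  refine hf c ?_
  have e : g * ∑ i, c i • f i = 0 := by
    rw [← hc, Finset.mul_sum]
    exact Finset.sum_congr rfl fun i _ => by rw [mul_smul_comm]
  exact (mul_eq_zero.1 e).resolve_left hg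

end

/-- Even valuations: the form is isotropic. -/
theorem unim (h0 : S_INT) : S_UNIM := by
  intro L O _ _ _ _ _ _ _ a b θ h hsq p _ h2 α hα hev
  have hp : p.Prime := Fact.out
  have hP : Prime (p : ℤ) := Nat.prime_iff_prime_int.1 hp
  have hINT := h0 L a b θ h hsq
  have hfin := fin_over (L := L) (O := O) hP.ne_zero
  have hev' : ∀ 𝔓 : HeightOneSpectrum O, ∃ y : L, Ov (p : ℤ) 𝔓 → y ≠ 0 ∧
      𝔓.valuation L α = 𝔓.valuation L y ^ 2 := by
    intro 𝔓
    by_cases h𝔓 : Ov (p : ℤ) 𝔓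
    · obtain ⟨y, hy⟩ := hev 𝔓 h𝔓
      refine ⟨y, fun _ => ⟨?_, hy⟩⟩
      rintro rfl
      rw [map_zero, zero_pow two_ne_zero, map_eq_zero] at hy
      exact hα hy
    · exact ⟨0, fun h => absurd h h𝔓⟩
  choose y hy using hev'
  obtain ⟨g0, hg0, hgv⟩ := weak (L := L) hfin.toFinset y (fun 𝔓 h𝔓 =>
    (hy 𝔓 (by simpa using h𝔓)).1)
  have hgv' : ∀ 𝔓 : HeightOneSpectrum O, Ov (p : ℤ) 𝔓 → 𝔓.valuation L (g0 ^ 2 / α) = 1 := by
    intro 𝔓 h𝔓
    rw [map_div₀, map_pow, hgv 𝔓 (by simpa using h𝔓), (hy 𝔓 h𝔓).2, div_self]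
    exact pow_ne_zero _ ((Valuation.ne_zero_iff _).2 (hy 𝔓 h𝔓).1)
  obtain ⟨s, hs, hsi⟩ := loc_int hP (g0 ^ 2 / α) fun 𝔓 h𝔓 => (hgv' 𝔓 h𝔓).le
  have hs0 : (s : L) ≠ 0 := by
    intro h
    apply hs
    have : s = 0 := by exact_mod_cast h
    rw [this]; exact dvd_zero _
  obtain ⟨g, hg⟩ : ∃ g : L, g = (s : L) * g0 := ⟨_, rfl⟩
  have hgne : g ≠ 0 := by rw [hg]; exact mul_ne_zero hs0 hg0
  have hgi : IsIntegral ℤ (g ^ 2 / α) := by
    have e : g ^ 2 / α = (s : L) * ((s : L) * (g0 ^ 2 / α)) := by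
      rw [hg]; ring
    rw [e]
    have hsint : IsIntegral ℤ (s : L) := by
      have := isIntegral_algebraMap (R := ℤ) (A := L) (x := s)
      simpa using this
    exact hsint.mul hsi
  have hδ0 : g ^ 2 / α ≠ 0 := div_ne_zero (pow_ne_zero _ hgne) hα
  have hδv : ∀ 𝔓 : HeightOneSpectrum O, Ov (p : ℤ) 𝔓 → 𝔓.valuation L (g ^ 2 / α) = 1 := by
    intro 𝔓 h𝔓
    have e : g ^ 2 / α = (s : L) ^ 2 * (g0 ^ 2 / α) := by
      rw [hg]; ring
    rw [e, map_mul, map_pow, val_eq hP h𝔓 hs, hgv' 𝔓 h𝔓, one_pow, one_mul]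
  obtain ⟨d, hd⟩ := (hINT _).1 hgi
  obtain ⟨s', hs', hsi'⟩ := loc_int hP (g ^ 2 / α)⁻¹ fun 𝔓 h𝔓 => by
    rw [map_inv₀, hδv 𝔓 h𝔓, inv_one]
  obtain ⟨e, he⟩ := (hINT _).1 hsi'
  have hprod : mulc a b d e = ![s', 0, 0] := by
    refine crd_uniq h (crd_mul h hd he) ?_
    have e1 : g ^ 2 / α * ((s' : L) * (g ^ 2 / α)⁻¹) = (s' : L) := by
      rw [mul_comm (s' : L), ← mul_assoc, mul_inv_cancel₀ hδ0, one_mul]
    rw [e1]
    exact crd_int s'
  have hdet : ¬ (p : ℤ) ∣ (Matrix.of (hk a b d)).det := by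
    intro hdvd
    have h3 := hk_det_mul a b d e
    rw [hprod, hk_det_int, neg_neg] at h3
    have h4 : (p : ℤ) ∣ s' ^ 3 := by
      rw [← h3]; exact Dvd.dvd.mul_right hdvd _
    exact hs' (hP.dvd_of_dvd_pow h4)
  obtain ⟨z, hz, hz0⟩ := iso_unim h2 (hk a b d) (hk_symm a b d) hdet
  have hF : IsoF h p α fun i : Fin 3 => g * θ ^ (i : ℕ) := by
    refine ⟨z, hz, ?_⟩
    rw [← hz0]
    refine Finset.sum_congr rfl fun i _ => Finset.sum_congr rfl fun j _ => ?_
    rw [gram h hd, Rat.cast_intCast]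
  exact iso_change h p α (li_mul (li_pow h) hgne) (li_pow h) hF

end Pool.Agent.N803.PQ
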